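import Mathlib

/-!
# Alternating paths covering one side of a red-blue bipartite graph

A red-blue bipartite graph with parts of sizes `4` and `3` such that
`|N^{RB}(X)| ≥ |X| - 1` for all `X ⊆ A`, but no alternating path covers `A`.
-/

namespace Pool.Agent.Results.MP_9cf868_co.NoCoveringPath

open Finset

/-- `G` is bipartite with parts `A` and `B`: every edge joins a vertex of `A` to a vertex of `B`. -/
def PartsBipartite {A B : Type} (G : SimpleGraph (A ⊕ B)) : Prop :=
  ∀ x y, G.Adj x y → (x.isLeft = true ∧ y.isRight = true) ∨ (x.isRight = true ∧ y.isLeft = true)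

/-- `N^{RB}(X)`: the vertices joined to some vertex of `X` by a red edge (colour `true`) and to
some vertex of `X` by a blue edge (colour `false`). -/
def NRB {A B : Type} (G : SimpleGraph (A ⊕ B)) (c : Sym2 (A ⊕ B) → Bool) (X : Set A) :
    Set (A ⊕ B) :=
  {v | (∃ x ∈ X, G.Adj (Sum.inl x) v ∧ c s(Sum.inl x, v) = true) ∧
       (∃ x ∈ X, G.Adj (Sum.inl x) v ∧ c s(Sum.inl x, v) = false)}

/-- A walk is alternating if any two consecutive edges have different colours. -/
def Alternating {V : Type} {G : SimpleGraph V} (c : Sym2 V → Bool) {u v : V} (p : G.Walk u v) :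
    Prop :=
  p.edges.IsChain (fun e f => c e ≠ c f)

/-! ### The example -/

/-- Colour table: `some true` red, `some false` blue, `none` non-adjacent. -/
def tab : Fin 4 → Fin 3 → Option Bool
  | 0, 0 => some true
  | 1, 0 => some false
  | 0, 1 => some true
  | 2, 1 => some true
  | 1, 1 => some false
  | 3, 1 => some false
  | 1, 2 => some true
  | 2, 2 => some true
  | 0, 2 => some false
  | 3, 2 => some false
  | _, _ => none

abbrev V := Fin 4 ⊕ Fin 3

instance memDec (a : V) (l : List V) : Decidable (a ∈ l) :=
  @List.instDecidableMemOfLawfulBEq V instBEqOfDecidableEq inferInstance a l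

def rel : V → V → Option Bool
  | Sum.inl a, Sum.inr b => tab a b
  | Sum.inr b, Sum.inl a => tab a b
  | _, _ => none

lemma rel_comm (x y : V) : rel x y = rel y x := by
  rcases x with x | x <;> rcases y with y | y <;> rfl

def G : SimpleGraph V where
  Adj x y := rel x y ≠ none
  symm := ⟨fun x y h => by rwa [rel_comm]⟩
  loopless := ⟨fun x h => by rcases x with x | x <;> exact h rfl⟩

instance : DecidableRel G.Adj := fun x y => inferInstanceAs (Decidable (rel x y ≠ none))

def col (x y : V) : Bool := (rel x y).getD false

lemma col_comm (x y : V) : col x y = col y x := by unfold col; rw [rel_comm]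

def c : Sym2 V → Bool := Sym2.lift ⟨col, col_comm⟩

@[simp] lemma c_mk (x y : V) : c s(x, y) = col x y := rfl

/-- Executable test for (the vertex list of) an alternating path. -/
def good : List V → Bool
  | [] => true
  | [_] => true
  | [a, b] => decide (a ≠ b) && decide (rel a b ≠ none)
  | a :: b :: d :: l => decide (a ∉ b :: d :: l) && decide (rel a b ≠ none) &&
      (col a b != col b d) && good (b :: d :: l)

def verts : List V := [Sum.inl 0, Sum.inl 1, Sum.inl 2, Sum.inl 3, Sum.inr 0, Sum.inr 1, Sum.inr 2]

lemma mem_verts (v : V) : v ∈ verts := by revert v; decide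

/-- All alternating paths with `k + 1` vertices. -/
def allGood : ℕ → List (List V)
  | 0 => verts.map (fun v => [v])
  | k + 1 => (allGood k).flatMap (fun l => (verts.map (fun v => v :: l)).filter good)

lemma good_tail {a : V} {l : List V} (h : good (a :: l) = true) : good l = true := by
  rcases l with _ | ⟨b, _ | ⟨d, l⟩⟩
  · rfl
  · rfl
  · simp only [good, Bool.and_eq_true] at h
    exact h.2

lemma mem_allGood (k : ℕ) : ∀ l : List V, l.length = k + 1 → good l = true → l ∈ allGood k := by
  induction k with
  | zero =>
    intro l hl _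
    obtain ⟨v, rfl⟩ := List.length_eq_one_iff.mp hl
    exact List.mem_map.mpr ⟨v, mem_verts v, rfl⟩
  | succ k ih =>
    intro l hl hg
    rcases l with _ | ⟨a, l⟩
    · simp at hl
    · have hl' : l.length = k + 1 := by simpa using hl
      have h1 := ih l hl' (good_tail hg)
      exact List.mem_flatMap.mpr ⟨l, h1, List.mem_filter.mpr
        ⟨List.mem_map.mpr ⟨a, mem_verts a, rfl⟩, hg⟩⟩

lemma check : ∀ k < 7, ∀ l ∈ allGood k, ¬ (∀ a : Fin 4, (Sum.inl a : V) ∈ l) := by
  decide +kernel

lemma good_of_walk {u v : V} (p : G.Walk u v) (hp : p.IsPath) (ha : Alternating c p) :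
    good p.support = true := by
  induction p with
  | nil => rfl
  | @cons u v w h p ih =>
    rw [SimpleGraph.Walk.cons_isPath_iff] at hp
    cases p with
    | nil =>
      simp only [SimpleGraph.Walk.support_cons, SimpleGraph.Walk.support_nil, good,
        Bool.and_eq_true, decide_eq_true_eq]
      exact ⟨h.ne, h⟩
    | @cons v x w h' p' =>
      have hne := hp.2
      have ha' : c s(u, v) ≠ c s(v, x) ∧
          (s(v, x) :: p'.edges).IsChain (fun e f => c e ≠ c f) := by
        have := ha
        unfold Alternating at this
        simp only [SimpleGraph.Walk.edges_cons] at this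
        exact List.isChain_cons_cons.mp this
      have ih' := ih hp.1 (by
        unfold Alternating
        simp only [SimpleGraph.Walk.edges_cons]
        exact ha'.2)
      have hsupp : (SimpleGraph.Walk.cons h' p').support = v :: p'.support := rfl
      have hs2 : ∃ l, p'.support = x :: l := by
        cases p' with
        | nil => exact ⟨[], rfl⟩
        | cons h'' p'' => exact ⟨_, rfl⟩
      obtain ⟨l, hl⟩ := hs2
      rw [SimpleGraph.Walk.support_cons]
      rw [hsupp, hl] at ih' hne ⊢
      simp only [good, Bool.and_eq_true, decide_eq_true_eq, bne_iff_ne]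
      exact ⟨⟨⟨hne, h⟩, ha'.1⟩, ih'⟩

lemma nrb_check : ∀ X : Finset (Fin 4), X.card ≤
    (univ.filter (fun b : Fin 3 => (∃ x ∈ X, tab x b = some true) ∧
      (∃ x ∈ X, tab x b = some false))).card + 1 := by
  decide +kernel

/-- **The statement fails**: there is a finite bipartite graph with a red/blue colouring of its
edges such that `|N^{RB}(X)| ≥ |X| - 1` for all `X ⊆ A`, but no alternating path covers `A`. -/
theorem result : ∃ (A B : Type) (_ : Finite A) (_ : Finite B) (G : SimpleGraph (A ⊕ B))
    (c : Sym2 (A ⊕ B) → Bool),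
    PartsBipartite G ∧ (∀ X : Set A, X.ncard ≤ (NRB G c X).ncard + 1) ∧
    ¬ ∃ (u v : A ⊕ B) (p : G.Walk u v), p.IsPath ∧ Alternating c p ∧
      ∀ a : A, Sum.inl a ∈ p.support := by
  classical
  refine ⟨Fin 4, Fin 3, inferInstance, inferInstance, G, c, ?_, ?_, ?_⟩
  · intro x y h
    rcases x with x | x <;> rcases y with y | y
    · exact absurd rfl h
    · exact Or.inl ⟨rfl, rfl⟩
    · exact Or.inr ⟨rfl, rfl⟩
    · exact absurd rfl h
  · intro X
    have h := nrb_check X.toFinset
    rw [Set.ncard_eq_toFinset_card']
    refine h.trans (Nat.add_le_add_right ?_ 1)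
    rw [← Finset.card_map ⟨(Sum.inr : Fin 3 → V), Sum.inr_injective⟩, ← Set.ncard_coe_finset]
    apply Set.ncard_le_ncard _ (Set.toFinite _)
    intro v hv
    rw [Finset.mem_coe, Finset.mem_map] at hv
    obtain ⟨b, hb, rfl⟩ := hv
    rw [Finset.mem_filter] at hb
    obtain ⟨_, ⟨x, hx, hxr⟩, ⟨y, hy, hyb⟩⟩ := hb
    rw [Set.mem_toFinset] at hx hy
    refine ⟨⟨x, hx, ?_, ?_⟩, ⟨y, hy, ?_, ?_⟩⟩
    · show tab x b ≠ none
      rw [hxr]; simp
    · show (tab x b).getD false = true
      rw [hxr]; rfl
    · show tab y b ≠ none
      rw [hyb]; simp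
    · show (tab y b).getD false = false
      rw [hyb]; rfl
  · rintro ⟨u, v, p, hp, ha, hcov⟩
    have hg := good_of_walk p hp ha
    have hlen : p.support.length ≤ 7 := by
      have h1 := hp.support_nodup.length_le_card
      have h2 : Fintype.card (Fin 4 ⊕ Fin 3) = 7 := by simp
      omega
    have hpos : 0 < p.support.length := by
      rw [SimpleGraph.Walk.length_support]; omega
    have hmem := mem_allGood (p.support.length - 1) p.support (by omega) hg
    exact check (p.support.length - 1) (by omega) p.support hmem hcov

end Pool.Agent.Results.MP_9cf868_co.NoCoveringPath
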